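import Pool.Agent.MNE.StmtsD

/-!
Row BRA of table mne: the parameters for Runge's method.
-/

set_option autoImplicit false

namespace Pool.Agent.MNE.H77

open Finset Filter Topology

theorem fp_eval (h M n Q : ℕ) (σ c κ u t : ℚ) :
    (Fp h M n Q σ c κ).evalEval u t =
      (u ^ h + σ * t ^ h) ^ M + c * (u ^ h - σ * t ^ h) ^ n - κ * u ^ Q * t ^ Q := by
  simp [Fp, Polynomial.evalEval]

/-- BRA. -/
theorem bra (hasy : AsyStmt) (hfva : FvaStmt) (hfvb : FvbStmt) : BraStmt := by
  intro κ c σ M n q S hp hS hE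
  obtain ⟨hne, hX, -, hY⟩ := hasy κ c σ M n q S hp hS hE
  have hn := hfva κ c σ M n q S hp hS hE
  have hco := hfvb κ c σ M n q S hp hS hE hn
  have h1 := hp.hn
  have h2 := hp.hnM
  have h3 := hp.hMq
  have h4 := hp.hq
  have hσ : ((σ : ℤ) : ℚ) = 1 ∨ ((σ : ℤ) : ℚ) = -1 := by
    rcases hp.hσ with h | h
    · left
      rw [h]
      norm_num
    · right
      rw [h]
      norm_num
  have hκ : (0 : ℚ) < ((κ : ℤ) : ℚ) := by
    have : 0 < κ := by
      rcases hp.hκ with h | h
      · rw [h.1]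
        positivity
      · rw [h.1]
        positivity
    exact_mod_cast this
  have hmem : ∀ᶠ p in lim S, p ∈ S := mem_inf_of_right (mem_principal_self S)
  rcases Nat.even_or_odd q with hq | hq
  · obtain ⟨Q, hQ⟩ := hq
    refine ⟨1, M - Q, Q, map (fun p : ℕ × ℕ => (p.1 ^ 2, p.2 ^ 2)) (lim S), ?_, ?_⟩
    · refine ⟨Or.inl rfl, by omega, by omega, by omega, h1, by omega, ?_, hσ, hκ⟩
      have h5 : Nat.Coprime M Q := Nat.Coprime.coprime_dvd_right ⟨2, by omega⟩ hco
      exact (Nat.coprime_sub_self_left (by omega)).2 h5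
    · refine ⟨?_, ?_, ?_, ?_⟩
      · haveI := hne
        exact map_neBot
      · rw [tendsto_map'_iff]
        have h6 : Tendsto (fun p : ℕ × ℕ => (p.1 : ℝ) ^ 2) (lim S) atTop :=
          (tendsto_pow_atTop two_ne_zero).comp hX
        refine h6.congr fun p => ?_
        simp
      · rw [tendsto_map'_iff]
        refine hY.congr fun p => ?_
        have h7 : q = 2 * Q := by omega
        have h8 : 2 * M - q = 2 * (M - Q) := by omega
        rw [h8, h7]
        simp [pow_mul]
      · rw [eventually_map]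
        filter_upwards [hmem] with p hpS
        rw [fp_eval]
        have h9 := (hE p hpS).eq
        have h10 : (κ : ℚ) * (p.1 : ℚ) ^ q * (p.2 : ℚ) ^ q =
            ((p.1 : ℚ) ^ 2 + σ * (p.2 : ℚ) ^ 2) ^ M + c * ((p.1 : ℚ) ^ 2 - σ * (p.2 : ℚ) ^ 2) ^ n := by
          exact_mod_cast h9
        have h7 : q = 2 * Q := by omega
        rw [h7, pow_mul, pow_mul] at h10
        push_cast
        simp only [pow_one]
        linarith
  · refine ⟨2, 2 * M - q, q, lim S, ?_, ?_⟩
    · obtain ⟨r, hr⟩ := hq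
      refine ⟨Or.inr ⟨rfl, ⟨M - r - 1, by omega⟩, ⟨r, hr⟩⟩, by omega, by omega, by omega, h1, hn,
        ?_, hσ, hκ⟩
      have h5 : Nat.Coprime (2 * M) q :=
        Nat.Coprime.mul_left (Nat.coprime_two_left.2 ⟨r, hr⟩) hco
      exact (Nat.coprime_sub_self_left (by omega)).2 h5
    · refine ⟨hne, hX, ?_, ?_⟩
      · refine hY.congr fun p => ?_
        simp
      · filter_upwards [hmem] with p hpS
        rw [fp_eval]
        have h9 := (hE p hpS).eq
        have h10 : (κ : ℚ) * (p.1 : ℚ) ^ q * (p.2 : ℚ) ^ q =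
            ((p.1 : ℚ) ^ 2 + σ * (p.2 : ℚ) ^ 2) ^ M + c * ((p.1 : ℚ) ^ 2 - σ * (p.2 : ℚ) ^ 2) ^ n := by
          exact_mod_cast h9
        linarith

end Pool.Agent.MNE.H77
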